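import Mathlib
import Pool.Agent.Helper27.MC.Base

/-!
MP_4042d8_co, row FLIP.
-/

namespace Pool.Agent.Helper51.MC

open Pool.Agent.Helper27.MC

set_option autoImplicit false
set_option linter.unusedSectionVars false
set_option linter.unusedSimpArgs false

section

variable {V : Type} [Fintype V] [DecidableEq V] (G : SimpleGraph V) [DecidableRel G.Adj]

/-- signed adjacency -/
def sf (c : V → Bool) (v y : V) : ℤ := if G.Adj v y then (if c y = c v then (-1 : ℤ) else 1) else 0

theorem sf_symm (c : V → Bool) (v y : V) : sf G c v y = sf G c y v := by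
  unfold sf
  by_cases h : G.Adj v y
  · have h' := h.symm
    by_cases h2 : c y = c v
    · simp [h, h', h2]
    · have h3 : ¬ c v = c y := fun h => h2 h.symm
      simp [h, h', h2, h3]
  · have h' : ¬ G.Adj y v := fun h2 => h h2.symm
    simp [h, h']

theorem mu_sum (c : V → Bool) (v : V) :
    (mu G c v : ℤ) = ∑ w, (if G.Adj v w ∧ c w = c v then (1 : ℤ) else 0) := by
  unfold mu
  rw [Finset.card_filter]
  push_cast
  rfl

theorem sg_sum (c : V → Bool) (X : Finset V) (v : V) :
    sg G c X v = ∑ w, (if w ∈ X then sf G c v w else 0) := by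
  unfold sg
  rw [Finset.sum_ite_mem]
  simp [sf]

theorem deg_sum (hG : G.IsRegularOfDegree 3) (v : V) :
    ∑ w, (if G.Adj v w then (1 : ℤ) else 0) = 3 := by
  have h := hG v
  rw [← SimpleGraph.card_neighborFinset_eq_degree] at h
  have h2 : G.neighborFinset v = Finset.univ.filter (fun w => G.Adj v w) := by
    ext w; simp
  rw [h2, Finset.card_filter] at h
  have h3 : ((∑ w, (if G.Adj v w then 1 else 0) : ℕ) : ℤ) = 3 := by rw [h]; rfl
  push_cast at h3
  exact h3

theorem sf_all (hG : G.IsRegularOfDegree 3) (c : V → Bool) (v : V) :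
    ∑ w, sf G c v w = 3 - 2 * (mu G c v : ℤ) := by
  rw [mu_sum, ← deg_sum G hG v, Finset.mul_sum, ← Finset.sum_sub_distrib]
  apply Finset.sum_congr rfl
  intro w _
  unfold sf
  by_cases h : G.Adj v w <;> by_cases h2 : c w = c v <;> simp [h, h2]

theorem flip_out (c : V → Bool) (X : Finset V) (v : V) (hv : v ∉ X) :
    (mu G (flp c X) v : ℤ) = mu G c v + sg G c X v := by
  rw [mu_sum, mu_sum, sg_sum, ← Finset.sum_add_distrib]
  apply Finset.sum_congr rfl
  intro w _
  unfold sf flp
  by_cases h : G.Adj v w <;> by_cases h2 : w ∈ X <;> cases h3 : c w <;> cases h4 : c v <;>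
    simp [h, h2, h3, h4, hv]

theorem flip_in (hG : G.IsRegularOfDegree 3) (c : V → Bool) (X : Finset V) (v : V) (hv : v ∈ X) :
    (mu G (flp c X) v : ℤ) = 3 - mu G c v - sg G c X v := by
  rw [mu_sum, mu_sum, sg_sum, ← deg_sum G hG v, ← Finset.sum_sub_distrib,
    ← Finset.sum_sub_distrib]
  apply Finset.sum_congr rfl
  intro w _
  unfold sf flp
  by_cases h : G.Adj v w <;> by_cases h2 : w ∈ X <;> cases h3 : c w <;> cases h4 : c v <;>
    simp [h, h2, h3, h4, hv]

theorem flip_imb (c : V → Bool) (X : Finset V) : imb (flp c X) = imb c - 2 * dd c X := by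
  have h : dd c X = ∑ x, (if x ∈ X then (if c x = true then (-1 : ℤ) else 1) else 0) := by
    unfold dd
    rw [Finset.sum_ite_mem]
    simp
  rw [h, Finset.mul_sum]
  unfold imb
  rw [← Finset.sum_sub_distrib]
  apply Finset.sum_congr rfl
  intro w _
  unfold flp
  by_cases h2 : w ∈ X <;> cases h3 : c w <;> simp [h2, h3]

theorem flip_ZZ (hG : G.IsRegularOfDegree 3) (c : V → Bool) (X : Finset V) :
    ZZ G (flp c X) = ZZ G c + ∑ x ∈ X, (6 - 4 * (mu G c x : ℤ)) - 2 * ∑ x ∈ X, sg G c X x := by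
  unfold ZZ
  have h1 : ∀ v, (mu G (flp c X) v : ℤ) = mu G c v + sg G c X v +
      (if v ∈ X then (3 - 2 * (mu G c v : ℤ) - 2 * sg G c X v) else 0) := by
    intro v
    by_cases hv : v ∈ X
    · rw [flip_in G hG c X v hv]; simp only [hv, if_true]; ring
    · rw [flip_out G c X v hv]; simp [hv]
  have h2 : ∑ v, sg G c X v = ∑ x ∈ X, (3 - 2 * (mu G c x : ℤ)) := by
    have h3 : ∀ v, sg G c X v = ∑ x ∈ X, sf G c x v := by
      intro v
      unfold sg
      apply Finset.sum_congr rfl
      intro x _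
      rw [sf_symm]
      rfl
    simp only [h3]
    rw [Finset.sum_comm]
    apply Finset.sum_congr rfl
    intro x _
    exact sf_all G hG c x
  have h3 : ∑ v, (if v ∈ X then (3 - 2 * (mu G c v : ℤ) - 2 * sg G c X v) else 0) =
      ∑ x ∈ X, (3 - 2 * (mu G c x : ℤ) - 2 * sg G c X x) := by
    rw [Finset.sum_ite_mem]; simp
  rw [Finset.sum_congr rfl (fun v _ => h1 v), Finset.sum_add_distrib, Finset.sum_add_distrib,
    h2, h3]
  have h4 : ∑ x ∈ X, (3 - 2 * (mu G c x : ℤ)) + ∑ x ∈ X, (3 - 2 * (mu G c x : ℤ) - 2 * sg G c X x)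
      = ∑ x ∈ X, (6 - 4 * (mu G c x : ℤ)) - 2 * ∑ x ∈ X, sg G c X x := by
    rw [← Finset.sum_add_distrib, Finset.mul_sum, ← Finset.sum_sub_distrib]
    apply Finset.sum_congr rfl
    intro x _
    ring
  linarith

end

/-- row FLIP -/
theorem FLIP : ST_FLIP := by
  intro V _ _ G _ hG c X
  exact ⟨flip_ZZ G hG c X, flip_imb c X, flip_out G c X, flip_in G hG c X⟩

end Pool.Agent.Helper51.MC
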