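import Mathlib
import Pool.Agent.Helper51.MC.FLIP

/-!
MP_4042d8_co, row UNI: compatible operations can be done together.
-/

namespace Pool.Agent.Helper51.MC

open Pool.Agent.Helper27.MC

set_option autoImplicit false
set_option linter.unusedSectionVars false
set_option linter.unusedSimpArgs false

section

variable {V : Type} [Fintype V] [DecidableEq V] (G : SimpleGraph V) [DecidableRel G.Adj]

/-- `mu` depends only on the colours of the closed neighbourhood -/
theorem mu_congr {c c' : V → Bool} {v : V} (h0 : c v = c' v) (h : ∀ w, G.Adj v w → c w = c' w) :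
    mu G c v = mu G c' v := by
  unfold mu
  congr 1
  ext w
  simp only [Finset.mem_filter, Finset.mem_univ, true_and]
  constructor
  · rintro ⟨h1, h2⟩
    exact ⟨h1, by rw [← h w h1, ← h0]; exact h2⟩
  · rintro ⟨h1, h2⟩
    exact ⟨h1, by rw [h w h1, h0]; exact h2⟩

theorem flp_congr {c : V → Bool} {X Y : Finset V} {v : V} (h : v ∈ X ↔ v ∈ Y) :
    flp c X v = flp c Y v := by
  unfold flp
  by_cases hv : v ∈ X
  · simp [hv, h.1 hv]
  · have : v ∉ Y := fun h' => hv (h.2 h')
    simp [hv, this]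

theorem flp_not {c : V → Bool} {X : Finset V} {v : V} (h : v ∉ X) : flp c X v = c v := by
  unfold flp
  simp [h]

variable {G}
variable {c : V → Bool} {n : ℕ} {X T : Fin n → Finset V} {d : Fin n → ℤ} {p m : Fin n → ℕ}

theorem uni_mem (hO : ∀ i, Op G c (X i) (T i) (d i) (p i) (m i))
    (hT : ∀ i k, i ≠ k → Disjoint (T i) (T k)) {i : Fin n} {v w : V} (hv : v ∈ T i)
    (hw : w = v ∨ G.Adj v w) : w ∈ Finset.univ.biUnion X ↔ w ∈ X i := by
  simp only [Finset.mem_biUnion, Finset.mem_univ, true_and]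
  constructor
  · rintro ⟨k, hk⟩
    by_cases hik : i = k
    · subst hik; exact hk
    · exfalso
      have h1 : v ∈ cn G (X k) := by
        unfold cn
        simp only [Finset.mem_filter, Finset.mem_univ, true_and]
        rcases hw with rfl | hw
        · exact Or.inl hk
        · exact Or.inr ⟨w, hk, hw⟩
      exact Finset.disjoint_left.1 (hT i k hik) hv ((hO k).sub h1)
  · intro h
    exact ⟨i, h⟩

theorem uni_flp (hO : ∀ i, Op G c (X i) (T i) (d i) (p i) (m i))
    (hT : ∀ i k, i ≠ k → Disjoint (T i) (T k)) {i : Fin n} {v w : V} (hv : v ∈ T i)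
    (hw : w = v ∨ G.Adj v w) : flp c (Finset.univ.biUnion X) w = flp c (X i) w :=
  flp_congr (uni_mem hO hT hv hw)

theorem uni_mu (hO : ∀ i, Op G c (X i) (T i) (d i) (p i) (m i))
    (hT : ∀ i k, i ≠ k → Disjoint (T i) (T k)) {i : Fin n} {v : V} (hv : v ∈ T i) :
    mu G (flp c (Finset.univ.biUnion X)) v = mu G (flp c (X i)) v :=
  mu_congr G (uni_flp hO hT hv (Or.inl rfl)) (fun _ hw => uni_flp hO hT hv (Or.inr hw))

theorem uni_out (hO : ∀ i, Op G c (X i) (T i) (d i) (p i) (m i)) {v w : V}
    (hv : ∀ i, v ∉ T i) (hw : w = v ∨ G.Adj v w) : w ∉ Finset.univ.biUnion X := by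
  simp only [Finset.mem_biUnion, Finset.mem_univ, true_and]
  rintro ⟨k, hk⟩
  have h1 : v ∈ cn G (X k) := by
    unfold cn
    simp only [Finset.mem_filter, Finset.mem_univ, true_and]
    rcases hw with rfl | hw
    · exact Or.inl hk
    · exact Or.inr ⟨w, hk, hw⟩
  exact hv k ((hO k).sub h1)

theorem uni_mu_out (hO : ∀ i, Op G c (X i) (T i) (d i) (p i) (m i)) {v : V}
    (hv : ∀ i, v ∉ T i) : mu G (flp c (Finset.univ.biUnion X)) v = mu G c v :=
  mu_congr G (flp_not (uni_out hO hv (Or.inl rfl)))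
    (fun _ hw => flp_not (uni_out hO hv (Or.inr hw)))

theorem uni_cen (hm : ∀ v, mu G c v ≤ 1) (hO : ∀ i, Op G c (X i) (T i) (d i) (p i) (m i))
    (hT : ∀ i k, i ≠ k → Disjoint (T i) (T k)) (b : Bool) :
    (Finset.univ.filter (fun v => flp c (Finset.univ.biUnion X) v = b ∧
      mu G (flp c (Finset.univ.biUnion X)) v = 2)).card =
    ∑ i, (Finset.univ.filter (fun v => flp c (X i) v = b ∧ mu G (flp c (X i)) v = 2)).card := by
  rw [← Finset.card_biUnion]
  · congr 1
    ext v
    simp only [Finset.mem_filter, Finset.mem_univ, true_and, Finset.mem_biUnion]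
    constructor
    · rintro ⟨h1, h2⟩
      by_cases hv : ∃ i, v ∈ T i
      · obtain ⟨i, hi⟩ := hv
        exact ⟨i, by rw [← uni_flp hO hT hi (Or.inl rfl)]; exact h1,
          by rw [← uni_mu hO hT hi]; exact h2⟩
      · push Not at hv
        rw [uni_mu_out hO hv] at h2
        have := hm v
        omega
    · rintro ⟨i, h1, h2⟩
      have hi : v ∈ T i := ((hO i).leaf v v h2).1
      exact ⟨by rw [uni_flp hO hT hi (Or.inl rfl)]; exact h1, by rw [uni_mu hO hT hi]; exact h2⟩
  · intro i _ k _ hik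
    rw [Function.onFun, Finset.disjoint_left]
    intro v h1 h2
    simp only [Finset.mem_filter, Finset.mem_univ, true_and] at h1 h2
    exact Finset.disjoint_left.1 (hT i k hik) ((hO i).leaf v v h1.2).1 ((hO k).leaf v v h2.2).1

theorem uni_dd (hO : ∀ i, Op G c (X i) (T i) (d i) (p i) (m i))
    (hT : ∀ i k, i ≠ k → Disjoint (T i) (T k)) :
    dd c (Finset.univ.biUnion X) = ∑ i, d i := by
  unfold dd
  rw [Finset.sum_biUnion]
  · apply Finset.sum_congr rfl
    intro i _
    exact (hO i).dX
  · intro i _ k _ hik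
    rw [Function.onFun, Finset.disjoint_left]
    intro v h1 h2
    have h3 : ∀ i, v ∈ X i → v ∈ T i := fun i h => (hO i).sub (by
      unfold cn
      simp only [Finset.mem_filter, Finset.mem_univ, true_and]
      exact Or.inl h)
    exact Finset.disjoint_left.1 (hT i k hik) (h3 i h1) (h3 k h2)

end

/-- row UNI -/
theorem UNI : ST_UNI := by
  intro V _ _ G _ hG c j hm hj n X T d p m hO hT hd hpm
  refine ⟨?_, ?_, ?_, ?_⟩
  · rw [flip_imb, uni_dd hO hT, hd, hj]
    ring
  · intro v
    by_cases hv : ∃ i, v ∈ T i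
    · obtain ⟨i, hi⟩ := hv
      rw [uni_mu hO hT hi]
      exact (hO i).mu2 v
    · push Not at hv
      rw [uni_mu_out hO hv]
      exact (hm v).trans (by norm_num)
  · intro v w h2 hvw hc
    by_cases hv : ∃ i, v ∈ T i
    · obtain ⟨i, hi⟩ := hv
      rw [uni_mu hO hT hi] at h2
      rw [uni_flp hO hT hi (Or.inl rfl), uni_flp hO hT hi (Or.inr hvw)] at hc
      obtain ⟨hw, h3⟩ := ((hO i).leaf v w h2).2 hvw hc
      rw [uni_mu hO hT hw]
      exact h3
    · push Not at hv
      rw [uni_mu_out hO hv] at h2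
      have := hm v
      omega
  · have h1 := uni_cen hm hO hT true
    have h2 := uni_cen hm hO hT false
    rw [h1, h2, Finset.sum_congr rfl (fun i _ => (hO i).cp), Finset.sum_congr rfl
      (fun i _ => (hO i).cm), hpm]

end Pool.Agent.Helper51.MC
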