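import Mathlib
import Pool.Agent.Helper27.MC.Base

/-!
MP_4042d8_co, row NB: the neighbourhoods of the vertices.
-/

namespace Pool.Agent.Helper51.MC

open Pool.Agent.Helper27.MC

set_option autoImplicit false
set_option linter.unusedSectionVars false
set_option linter.unusedSimpArgs false

section

variable {V : Type} [Fintype V] [DecidableEq V] (G : SimpleGraph V) [DecidableRel G.Adj]

/-- three named neighbours -/
theorem nb_three (hG : G.IsRegularOfDegree 3) (v : V) : ∃ x a b : V, x ≠ a ∧ x ≠ b ∧ a ≠ b ∧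
    ∀ w, G.Adj v w ↔ w = x ∨ w = a ∨ w = b := by
  have h := hG v
  rw [← SimpleGraph.card_neighborFinset_eq_degree, Finset.card_eq_three] at h
  obtain ⟨x, a, b, h1, h2, h3, h4⟩ := h
  refine ⟨x, a, b, h1, h2, h3, fun w => ?_⟩
  rw [← SimpleGraph.mem_neighborFinset, h4]
  simp

/-- `mu` from the three neighbours -/
theorem nb_mu {v x a b : V} (h1 : x ≠ a) (h2 : x ≠ b) (h3 : a ≠ b)
    (h : ∀ w, G.Adj v w ↔ w = x ∨ w = a ∨ w = b) (c : V → Bool) :
    mu G c v = (if c x = c v then 1 else 0) + (if c a = c v then 1 else 0) +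
      (if c b = c v then 1 else 0) := by
  unfold mu
  have e : Finset.univ.filter (fun w => G.Adj v w ∧ c w = c v) =
      ({x, a, b} : Finset V).filter (fun w => c w = c v) := by
    ext w
    simp only [Finset.mem_filter, Finset.mem_univ, true_and, Finset.mem_insert,
      Finset.mem_singleton, h w]
  rw [e, Finset.card_filter, Finset.sum_insert (by simp [h1, h2]), Finset.sum_insert (by simp [h3]),
    Finset.sum_singleton]
  ring

end

/-- row NB -/
theorem NB : ST_NB := by
  intro V _ _ G _ hG c v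
  obtain ⟨x, a, b, h1, h2, h3, h⟩ := nb_three G hG v
  have hm := nb_mu G h1 h2 h3 h c
  have hb : ∀ y : V, c y ≠ c v → c y = !(c v) := by
    intro y hy
    cases h1 : c y <;> cases h2 : c v <;> simp_all
  refine ⟨?_, ?_, ?_⟩
  · intro h0
    rw [h0] at hm
    by_cases hx : c x = c v <;> by_cases ha : c a = c v <;> by_cases hb' : c b = c v <;>
      simp [hx, ha, hb'] at hm
    · exact ⟨x, a, b, h1, h2, h3, h, hx, hb a ha, hb b hb'⟩
    · exact ⟨a, x, b, h1.symm, h3, h2, fun w => by rw [h w]; tauto, ha, hb x hx, hb b hb'⟩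
    · exact ⟨b, x, a, h2.symm, h3.symm, h1, fun w => by rw [h w]; tauto, hb', hb x hx, hb a ha⟩
  · intro h0
    rw [h0] at hm
    by_cases hx : c x = c v <;> by_cases ha : c a = c v <;> by_cases hb' : c b = c v <;>
      simp [hx, ha, hb'] at hm
    exact ⟨x, a, b, h1, h2, h3, h, hb x hx, hb a ha, hb b hb'⟩
  · intro x a b h1 h2 h3 h c'
    exact nb_mu G h1 h2 h3 h c'

end Pool.Agent.Helper51.MC
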