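import Mathlib
import Pool.Agent.Helper27.MC.Base2
import Pool.Agent.Helper51.MC.NB
import Pool.Agent.Helper4.MC.CNT

/-!
MP_4042d8_co, row F4: the number of free vertices.
-/

namespace Pool.Agent.Helper51.MC

open Pool.Agent.Helper27.MC

set_option autoImplicit false
set_option linter.unusedSectionVars false
set_option linter.unusedSimpArgs false

section

variable {V : Type} [Fintype V] [DecidableEq V] (G : SimpleGraph V) [DecidableRel G.Adj]

/-- counting the neighbours with a property, when only two neighbours are possible -/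
theorem cnt_two {v a b : V} (hab : a ≠ b) (ha : G.Adj v a) (hb : G.Adj v b) (P : V → Prop)
    [DecidablePred P] (h : ∀ w, G.Adj v w → P w → w = a ∨ w = b) :
    (Finset.univ.filter (fun w => G.Adj v w ∧ P w)).card =
      (if P a then 1 else 0) + (if P b then 1 else 0) := by
  have e : Finset.univ.filter (fun w => G.Adj v w ∧ P w) = ({a, b} : Finset V).filter P := by
    ext w
    simp only [Finset.mem_filter, Finset.mem_univ, true_and, Finset.mem_insert,
      Finset.mem_singleton]
    constructor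
    · rintro ⟨h1, h2⟩
      exact ⟨h w h1 h2, h2⟩
    · rintro ⟨h1, h2⟩
      rcases h1 with h1 | h1 <;> subst h1
      · exact ⟨ha, h2⟩
      · exact ⟨hb, h2⟩
  rw [e, Finset.card_filter, Finset.sum_insert (by simp [hab]), Finset.sum_singleton]

/-- true vertices are of type `A` or `Q` -/
theorem aq_of (c : V → Bool) (hm : ∀ v, mu G c v ≤ 1) {w : V} (h : c w = true) :
    (tA G c w ∧ ¬ tQ G c w) ∨ (tQ G c w ∧ ¬ tA G c w) := by
  have h1 := hm w
  unfold tA tQ
  have h2 : mu G c w = 0 ∨ mu G c w = 1 := by omega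
  rcases h2 with h2 | h2 <;> simp [h2, h]

/-- the number of `Q`-neighbours of an `S`-vertex -/
theorem kq_eq (hG : G.IsRegularOfDegree 3) (c : V → Bool) (hm : ∀ v, mu G c v ≤ 1) {s : V}
    (hs : tS G c s) :
    ((Finset.univ.filter (fun w => G.Adj s w ∧ tQ G c w)).card : ℤ) =
      1 - (if Fr G c s then 1 else 0) + (if TD G c s then 1 else 0) := by
  obtain ⟨m, a, b, h1, h2, h3, h, hcm, hca, hcb⟩ := ((NB V G hG c s).1 hs.2)
  have hs1 := hs.1
  have e := cnt_two G h3 ((h a).2 (by simp)) ((h b).2 (by simp)) (fun w => tQ G c w) (by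
    intro w hw hq
    rcases (h w).1 hw with h4 | h4 | h4
    · subst h4
      rw [hs1] at hcm
      rw [hq.1] at hcm
      exact absurd hcm (by simp)
    · exact Or.inl h4
    · exact Or.inr h4)
  rw [e]
  have ha1 : c a = true := by rw [hca, hs1]; rfl
  have hb1 : c b = true := by rw [hcb, hs1]; rfl
  have hfr : Fr G c s ↔ tA G c a ∧ tA G c b := by
    unfold Fr
    constructor
    · rintro ⟨_, h5⟩
      exact ⟨h5 a ((h a).2 (by simp)) ha1, h5 b ((h b).2 (by simp)) hb1⟩
    · rintro ⟨h5, h6⟩
      refine ⟨hs, fun w hw hcw => ?_⟩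
      rcases (h w).1 hw with h4 | h4 | h4
      · subst h4
        rw [hcw, hs1] at hcm
        exact absurd hcm (by simp)
      · subst h4; exact h5
      · subst h4; exact h6
  have htd : TD G c s ↔ tQ G c a ∧ tQ G c b := by
    unfold TD
    constructor
    · rintro ⟨_, h5⟩
      exact ⟨h5 a ((h a).2 (by simp)) ha1, h5 b ((h b).2 (by simp)) hb1⟩
    · rintro ⟨h5, h6⟩
      refine ⟨hs, fun w hw hcw => ?_⟩
      rcases (h w).1 hw with h4 | h4 | h4
      · subst h4
        rw [hcw, hs1] at hcm
        exact absurd hcm (by simp)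
      · subst h4; exact h5
      · subst h4; exact h6
  rcases aq_of G c hm ha1 with ⟨x1, x2⟩ | ⟨x1, x2⟩ <;>
    rcases aq_of G c hm hb1 with ⟨y1, y2⟩ | ⟨y1, y2⟩ <;>
    simp [hfr, htd, x1, x2, y1, y2]

/-- the number of `S`-neighbours of a `Q`-vertex -/
theorem ks_eq (hG : G.IsRegularOfDegree 3) (c : V → Bool) {q : V} (hq : tQ G c q) :
    ((Finset.univ.filter (fun w => G.Adj q w ∧ tS G c w)).card : ℤ) =
      1 - (if (∀ s, G.Adj q s → ¬ tS G c s) then 1 else 0) +
        (if (∃ s s', s ≠ s' ∧ G.Adj q s ∧ G.Adj q s' ∧ tS G c s ∧ tS G c s') then 1 else 0) := by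
  obtain ⟨m, a, b, h1, h2, h3, h, hcm, hca, hcb⟩ := ((NB V G hG c q).1 hq.2)
  have hq1 := hq.1
  have hm' : ¬ tS G c m := by
    intro h5
    have h6 := h5.1
    rw [hcm, hq1] at h6
    exact absurd h6 (by simp)
  have e := cnt_two G h3 ((h a).2 (by simp)) ((h b).2 (by simp)) (fun w => tS G c w) (by
    intro w hw hq
    rcases (h w).1 hw with h4 | h4 | h4
    · subst h4
      exact absurd hq hm'
    · exact Or.inl h4
    · exact Or.inr h4)
  rw [e]
  have h0 : (∀ s, G.Adj q s → ¬ tS G c s) ↔ ¬ tS G c a ∧ ¬ tS G c b := by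
    constructor
    · intro h5
      exact ⟨h5 a ((h a).2 (by simp)), h5 b ((h b).2 (by simp))⟩
    · rintro ⟨h5, h6⟩ s hs
      rcases (h s).1 hs with h4 | h4 | h4 <;> subst h4
      · exact hm'
      · exact h5
      · exact h6
  have h22 : (∃ s s', s ≠ s' ∧ G.Adj q s ∧ G.Adj q s' ∧ tS G c s ∧ tS G c s') ↔
      tS G c a ∧ tS G c b := by
    constructor
    · rintro ⟨s, s', h5, h6, h7, h8, h9⟩
      rcases (h s).1 h6 with h4 | h4 | h4 <;> rcases (h s').1 h7 with h4' | h4' | h4' <;>
        subst h4 <;> first | exact absurd h8 hm' | skip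
      · subst h4'; exact absurd h9 hm'
      · exact absurd h4'.symm h5
      · subst h4'; exact ⟨h8, h9⟩
      · subst h4'; exact absurd h9 hm'
      · subst h4'; exact ⟨h9, h8⟩
      · exact absurd h4'.symm h5
    · rintro ⟨h5, h6⟩
      exact ⟨a, b, h3, (h a).2 (by simp), (h b).2 (by simp), h5, h6⟩
  have e0 : (if (∀ s, G.Adj q s → ¬ tS G c s) then (1 : ℤ) else 0) =
      if (¬ tS G c a ∧ ¬ tS G c b) then 1 else 0 := if_congr h0 rfl rfl
  have e2 : (if (∃ s s', s ≠ s' ∧ G.Adj q s ∧ G.Adj q s' ∧ tS G c s ∧ tS G c s') then (1 : ℤ)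
      else 0) = if (tS G c a ∧ tS G c b) then 1 else 0 := if_congr h22 rfl rfl
  rw [e0, e2]
  by_cases x : tS G c a <;> by_cases y : tS G c b <;> simp [x, y]

end

/-- row F4 -/
theorem F4 : ST_F4 := by
  intro V _ _ G _ hG c j hO _
  have hm := hO.mu1
  have hc := Pool.Agent.Helper4.MC.CNT V G hG c hm
  rw [hO.imb2] at hc
  -- the double count
  have hd : ∑ s ∈ Finset.univ.filter (fun v => tS G c v),
      ((Finset.univ.filter (fun w => G.Adj s w ∧ tQ G c w)).card : ℤ) =
      ∑ q ∈ Finset.univ.filter (fun v => tQ G c v),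
      ((Finset.univ.filter (fun w => G.Adj q w ∧ tS G c w)).card : ℤ) := by
    have e1 : ∀ s : V, ((Finset.univ.filter (fun w => G.Adj s w ∧ tQ G c w)).card : ℤ) =
        ∑ q ∈ Finset.univ.filter (fun v => tQ G c v), (if G.Adj s q then (1 : ℤ) else 0) := by
      intro s
      rw [Finset.card_filter, Finset.sum_filter]
      push_cast
      refine Finset.sum_congr rfl fun q _ => ?_
      by_cases h1 : G.Adj s q <;> by_cases h2 : tQ G c q <;> simp [h1, h2]
    have e2 : ∀ q : V, ((Finset.univ.filter (fun w => G.Adj q w ∧ tS G c w)).card : ℤ) =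
        ∑ s ∈ Finset.univ.filter (fun v => tS G c v), (if G.Adj s q then (1 : ℤ) else 0) := by
      intro q
      rw [Finset.card_filter, Finset.sum_filter]
      push_cast
      refine Finset.sum_congr rfl fun s _ => ?_
      by_cases h1 : G.Adj s q <;> by_cases h2 : tS G c s <;> simp [h1, h2, G.adj_comm q s]
    simp only [e1, e2]
    exact Finset.sum_comm
  have hL : ∑ s ∈ Finset.univ.filter (fun v => tS G c v),
      ((Finset.univ.filter (fun w => G.Adj s w ∧ tQ G c w)).card : ℤ) =
      (Finset.univ.filter (fun v => tS G c v)).card -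
        (Finset.univ.filter (fun v => Fr G c v)).card +
        (Finset.univ.filter (fun v => TD G c v)).card := by
    have e1 : ∑ s ∈ Finset.univ.filter (fun v => tS G c v),
        ((Finset.univ.filter (fun w => G.Adj s w ∧ tQ G c w)).card : ℤ) =
        ∑ s ∈ Finset.univ.filter (fun v => tS G c v),
          (1 - (if Fr G c s then (1 : ℤ) else 0) + (if TD G c s then 1 else 0)) := by
      refine Finset.sum_congr rfl fun s hs => ?_
      exact kq_eq G hG c hm (Finset.mem_filter.1 hs).2
    rw [e1, Finset.sum_add_distrib, Finset.sum_sub_distrib]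
    have e2 : ∑ s ∈ Finset.univ.filter (fun v => tS G c v), (if Fr G c s then (1 : ℤ) else 0) =
        (Finset.univ.filter (fun v => Fr G c v)).card := by
      rw [← Finset.sum_filter, Finset.filter_filter, Finset.card_eq_sum_ones]
      push_cast
      refine Finset.sum_congr ?_ fun _ _ => rfl
      ext v
      simp only [Finset.mem_filter, Finset.mem_univ, true_and]
      exact ⟨fun h => h.2, fun h => ⟨h.1, h⟩⟩
    have e3 : ∑ s ∈ Finset.univ.filter (fun v => tS G c v), (if TD G c s then (1 : ℤ) else 0) =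
        (Finset.univ.filter (fun v => TD G c v)).card := by
      rw [← Finset.sum_filter, Finset.filter_filter, Finset.card_eq_sum_ones]
      push_cast
      refine Finset.sum_congr ?_ fun _ _ => rfl
      ext v
      simp only [Finset.mem_filter, Finset.mem_univ, true_and]
      exact ⟨fun h => h.2, fun h => ⟨h.1, h⟩⟩
    rw [e2, e3]
    simp
  have hR : ∑ q ∈ Finset.univ.filter (fun v => tQ G c v),
      ((Finset.univ.filter (fun w => G.Adj q w ∧ tS G c w)).card : ℤ) =
      (Finset.univ.filter (fun v => tQ G c v)).card -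
        (Finset.univ.filter (fun q => tQ G c q ∧ ∀ s, G.Adj q s → ¬ tS G c s)).card +
        (Finset.univ.filter (fun q => tQ G c q ∧
          ∃ s s', s ≠ s' ∧ G.Adj q s ∧ G.Adj q s' ∧ tS G c s ∧ tS G c s')).card := by
    have e1 : ∑ q ∈ Finset.univ.filter (fun v => tQ G c v),
        ((Finset.univ.filter (fun w => G.Adj q w ∧ tS G c w)).card : ℤ) =
        ∑ q ∈ Finset.univ.filter (fun v => tQ G c v),
          (1 - (if (∀ s, G.Adj q s → ¬ tS G c s) then (1 : ℤ) else 0) +
            (if (∃ s s', s ≠ s' ∧ G.Adj q s ∧ G.Adj q s' ∧ tS G c s ∧ tS G c s') then 1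
              else 0)) := by
      refine Finset.sum_congr rfl fun s hs => ?_
      exact ks_eq G hG c (Finset.mem_filter.1 hs).2
    rw [e1, Finset.sum_add_distrib, Finset.sum_sub_distrib]
    have e2 : ∑ q ∈ Finset.univ.filter (fun v => tQ G c v),
        (if (∀ s, G.Adj q s → ¬ tS G c s) then (1 : ℤ) else 0) =
        (Finset.univ.filter (fun q => tQ G c q ∧ ∀ s, G.Adj q s → ¬ tS G c s)).card := by
      rw [← Finset.sum_filter, Finset.filter_filter, Finset.card_eq_sum_ones]
      push_cast
      rfl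
    have e3 : ∑ q ∈ Finset.univ.filter (fun v => tQ G c v),
        (if (∃ s s', s ≠ s' ∧ G.Adj q s ∧ G.Adj q s' ∧ tS G c s ∧ tS G c s') then (1 : ℤ)
          else 0) =
        (Finset.univ.filter (fun q => tQ G c q ∧
          ∃ s s', s ≠ s' ∧ G.Adj q s ∧ G.Adj q s' ∧ tS G c s ∧ tS G c s')).card := by
      rw [← Finset.sum_filter, Finset.filter_filter, Finset.card_eq_sum_ones]
      push_cast
      rfl
    rw [e2, e3]
    simp
  rw [hL, hR] at hd
  have key : ((Finset.univ.filter (fun v => Fr G c v)).card : ℤ) +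
      ((Finset.univ.filter (fun q => tQ G c q ∧
          ∃ s s', s ≠ s' ∧ G.Adj q s ∧ G.Adj q s' ∧ tS G c s ∧ tS G c s')).card : ℤ) =
      6 * (j : ℤ) + ((Finset.univ.filter (fun v => TD G c v)).card : ℤ) +
        ((Finset.univ.filter (fun q => tQ G c q ∧ ∀ s, G.Adj q s → ¬ tS G c s)).card : ℤ) := by
    linarith
  exact_mod_cast key

end Pool.Agent.Helper51.MC
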