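import Mathlib
import Pool.Agent.Helper91.MC.Dict
import Pool.Agent.Helper96.MC.C23

/-!
MP_4042d8_co, section C, row CC: the count.
-/

set_option autoImplicit false
set_option linter.unusedSectionVars false
set_option linter.unusedSimpArgs false
set_option linter.unusedVariables false

namespace Pool.Agent.Helper51.MC

open Pool.Agent.Helper27.MC hiding Fr T1 ter
open Pool.Agent.Helper88.MC
open Pool.Agent.Helper64.MC hiding ST_C1 ST_C2 ST_C3
open Pool.Agent.Helper91.MC Pool.Agent.Helper42.MC Pool.Agent.Helper96.MC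

section

variable {V : Type} [Fintype V] [DecidableEq V] {G : SimpleGraph V} [DecidableRel G.Adj]
  {c : V → Bool}

/-- an apex in a component `K4` -/
def Kq (G : SimpleGraph V) [DecidableRel G.Adj] (c : V → Bool) (q : V) : Prop :=
  ∃ p x x', Td G c q p x x' p p

/-- not accessible, not in a `K4` -/
def Yy (G : SimpleGraph V) [DecidableRel G.Adj] (c : V → Bool) (q : V) : Prop :=
  Apx G c q ∧ ¬ Kq G c q ∧ ∀ m, ¬ Acc G c m q

theorem apx_td (hG : G.IsRegularOfDegree 3) (hm : ∀ v, mu G c v ≤ 1) {q : V}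
    (h : Apx G c q) : ∃ p x x' n n', Td G c q p x x' n n' := by
  obtain ⟨s, s', h⟩ := h
  obtain ⟨p, n, n', T⟩ := td_of hG hm h
  exact ⟨p, s, s', n, n', T⟩

theorem td_cor {q p x x' n n' y : V} (T : Td G c q p x x' n n') (hy : G.Adj q y)
    (cy : c y = false) : y = x ∨ y = x' := by
  rcases (T.nq.nb y).1 hy with e | e | e
  · exact absurd e (ne_col cy T.cp)
  · exact Or.inl e
  · exact Or.inr e

/-- the data of an apex with a given corner -/
theorem td_at (hG : G.IsRegularOfDegree 3) (hm : ∀ v, mu G c v ≤ 1) {q y : V}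
    (h : Apx G c q) (hy : G.Adj q y) (cy : c y = false) : ∃ p x' n n', Td G c q p y x' n n' := by
  obtain ⟨p, x, x', n, n', T⟩ := apx_td hG hm h
  rcases td_cor T hy cy with e | e
  · subst e
    exact ⟨p, x', n, n', T⟩
  · subst e
    exact ⟨p, x, n', n, T.swap⟩

theorem td_n {q p x x' n n' b : V} (T : Td G c q p x x' n n') (hb : G.Adj x b)
    (cb : c b = true) (hne : b ≠ q) : b = n :=
  n3_third T.nx hb hne (ne_col T.cx' cb).symm

theorem td_xn {q p x x' n n' : V} (T : Td G c q p x x' n n') : G.Adj x n :=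
  (T.nx.nb n).2 (Or.inr (Or.inr rfl))

theorem td_qx {q p x x' n n' : V} (T : Td G c q p x x' n n') : G.Adj q x :=
  (T.nq.nb x).2 (Or.inr (Or.inl rfl))

theorem td_nq {q p x x' n n' : V} (T : Td G c q p x x' n n') : n ≠ q := T.nx.xz.symm

/-- in a `K4` the other vertex `p` is an apex in a `K4` too -/
theorem k4_mate (hG : G.IsRegularOfDegree 3) (hm : ∀ v, mu G c v ≤ 1) {q p x x' : V}
    (T : Td G c q p x x' p p) : Td G c p q x x' q q := by
  have h1 : G.Adj x p := td_xn T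
  have h2 : G.Adj x' p := td_xn T.swap
  have tp : Tp G c p x x' := ⟨⟨T.cp, mu_of_rm hm T.rqp.symm⟩, h1.symm, h2.symm, T.rxx, T.cx⟩
  obtain ⟨q', n, n', T'⟩ := td_of hG hm tp
  have e1 : q' = q := rm_uniq (hm p) T'.rqp T.rqp.symm
  subst e1
  have e2 : q' = n := td_n T' (td_qx T).symm T.cq (T.nx.xz)
  have e3 : q' = n' := td_n T'.swap (td_qx T.swap).symm T.cq (T.nx.xz)
  rw [← e2, ← e3] at T'
  exact T'

theorem kq_td (hG : G.IsRegularOfDegree 3) (hm : ∀ v, mu G c v ≤ 1) {q p x x' n n' : V}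
    (h : Kq G c q) (T : Td G c q p x x' n n') : n = p := by
  obtain ⟨p1, y, y', T1⟩ := h
  have e1 : p1 = p := rm_uniq (hm q) T1.rqp T.rqp
  subst e1
  have h1 : G.Adj x p1 := by
    rcases td_cor T1 (td_qx T) T.cx with e | e
    · rw [e]; exact td_xn T1
    · rw [e]; exact td_xn T1.swap
  exact (td_n T h1 T.cp (T.rqp.1.ne.symm)).symm

theorem kq_mate (hG : G.IsRegularOfDegree 3) (hm : ∀ v, mu G c v ≤ 1) {q p : V}
    (h : Kq G c q) (hr : Rm G c q p) : Kq G c p ∧ Apx G c p := by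
  obtain ⟨p1, y, y', T1⟩ := h
  have e1 : p1 = p := rm_uniq (hm q) T1.rqp hr
  subst e1
  have T2 := k4_mate hG hm T1
  exact ⟨⟨q, y, y', T2⟩, T2.apx hm⟩

/-- a vertex is a corner of two apexes only in a `K4` -/
theorem cor_uniq (h1 : ST_C1) (hG : G.IsRegularOfDegree 3) {j : ℕ} (hj : 1 ≤ j)
    (hK : CK G c j) {a b x : V} (ha : Apx G c a) (hb : Apx G c b) (hax : G.Adj a x)
    (hbx : G.Adj b x) (cx : c x = false) (hne : a ≠ b) :
    Rm G c a b ∧ Kq G c a ∧ Kq G c b := by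
  have hm := hK.1.mu1
  obtain ⟨p, x', n, n', T⟩ := td_at hG hm ha hax cx
  obtain ⟨p2, x2, m, m', T2⟩ := td_at hG hm hb hbx cx
  have e1 : b = n := td_n T hbx.symm T2.cq (Ne.symm hne)
  have e2 : x2 = x' := rm_uniq (hm x) T2.rxx T.rxx
  subst e2
  have e3 : b = n' := td_n T.swap (td_qx T2.swap).symm T2.cq (Ne.symm hne)
  have hC := h1 V G hG c j hj hK a p x x2 n n' T
  rcases hC with ⟨e4, e5⟩ | ⟨_, _, e4⟩
  · rw [e4, e5] at T
    rw [e4] at e1
    rw [← e1] at T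
    exact ⟨T.rqp, ⟨b, x, x2, T⟩, ⟨a, x, x2, k4_mate hG hm T⟩⟩
  · exact absurd (e1.symm.trans e3) e4

/-- the corner `x` of an apex is in `D` if its other true neighbour is not of type `A` -/
theorem cor_Dd (hG : G.IsRegularOfDegree 3) (hm : ∀ v, mu G c v ≤ 1) {q p x x' n n' : V}
    (T : Td G c q p x x' n n') (hn : ¬ tA G c n) : x ∈ Dd G c := by
  rw [dict_D hG hm]
  refine ⟨⟨T.cx, mu_of_rm hm T.rxx⟩, fun w hw cw => ?_⟩
  by_cases e : w = q
  · rw [e]
    exact ⟨T.cq, mu_of_rm hm T.rqp⟩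
  · rw [td_n T hw cw e]
    rcases tA_or_tQ hm T.cn with h | h
    · exact absurd h hn
    · exact h

theorem acc_succ {q w : V} {m : ℕ} (h : Ch G c q w) (hA : Acc G c m w) : Acc G c (m + 1) q := by
  obtain ⟨f, f0, f1, f2⟩ := hA
  refine ⟨fun i => Nat.casesOn i q f, rfl, ?_, f2⟩
  intro i hi
  cases i with
  | zero =>
    show Ch G c q (f 0)
    rw [f0]
    exact h
  | succ i => exact f1 i (by omega)

theorem acc_zero {q p x x' n n' : V} (T : Td G c q p x x' n n') (hn : tA G c n) :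
    Acc G c 0 q :=
  ⟨fun _ => q, rfl, fun i hi => absurd hi (Nat.not_lt_zero i), ⟨p, x, x', n, n', T, hn⟩⟩

end

/-- row CC -/
theorem CC (h1 : ST_C1) (h2 : ST_C2) (h4 : ST_C4) (h6 : ST_C6) (h7 : ST_C7) : ST_CC := by
  classical
  intro V _ _ G _ hG c j hj hE
  have hK := hE.ck
  have hO := hK.1
  have hm := hO.mu1
  -- a numbering of the vertices
  let e : V → ℕ := fun v => (Fintype.equivFin V v : ℕ)
  have he : ∀ v w, e v = e w → v = w := by
    intro v w h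
    exact (Fintype.equivFin V).injective (Fin.ext h)
  -- choice of the two corners
  have hX : ∀ q, ∃ xx : V × V, Apx G c q → ∃ p n n', Td G c q p xx.1 xx.2 n n' := by
    intro q
    by_cases h : Apx G c q
    · obtain ⟨p, x, x', n, n', T⟩ := apx_td hG hm h
      exact ⟨(x, x'), fun _ => ⟨p, n, n', T⟩⟩
    · exact ⟨(q, q), fun h' => absurd h' h⟩
  choose XX hXX using hX
  -- primary apexes
  let Pr : V → Prop := fun q => Yy G c q ∨ (Kq G c q ∧ ∀ p, Rm G c q p → e q < e p)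
  have hPrA : ∀ q, Pr q → Apx G c q := by
    rintro q (h | ⟨⟨p, x, x', T⟩, _⟩)
    · exact h.1
    · exact T.apx hm
  -- primary apexes have no common corner
  have hPP : ∀ a b x, Pr a → Pr b → G.Adj a x → G.Adj b x → c x = false → a = b := by
    intro a b x ha hb hax hbx cx
    by_contra hne
    obtain ⟨r, ka, kb⟩ := cor_uniq h1 hG hj hK (hPrA a ha) (hPrA b hb) hax hbx cx hne
    rcases ha with ha | ha
    · exact ha.2.1 ka
    · rcases hb with hb | hb
      · exact hb.2.1 kb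
      · exact absurd (ha.2 b r) (not_lt.2 (hb.2 a r.symm).le)
  -- corners of primary apexes and vertices adjacent to the mate of an accessible apex
  have hPD : ∀ a q p x, Pr a → G.Adj a x → c x = false → Apx G c q → Rm G c q p →
      ¬ Apx G c p → G.Adj p x → (∃ m, Acc G c m q) → False := by
    intro a q p x ha hax cx hq hqp hp hpx ⟨m, hacc⟩
    have haA := hPrA a ha
    obtain ⟨pa, x', n, n', T⟩ := td_at hG hm haA hax cx
    obtain ⟨pq, _, _, _, _, Tq⟩ := apx_td hG hm hq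
    have epq : pq = p := rm_uniq (hm q) Tq.rqp hqp
    have cp : c p = true := by rw [← epq]; exact Tq.cp
    have hpa : p ≠ a := fun e0 => hp (e0 ▸ haA)
    have e1 : p = n := td_n T hpx.symm cp hpa
    rcases h1 V G hG c j hj hK a pa x x' n n' T with ⟨e4, e5⟩ | ⟨e4, _, _⟩
    · rw [e4, e5] at T
      have := (k4_mate hG hm T).apx hm
      rw [← e4, ← e1] at this
      exact hp this
    · rcases ha with ha | ha
      · exact ha.2.2 (m + 1) (acc_succ ⟨pa, x, x', n, n', T, e4, hq, e1 ▸ hqp⟩ hacc)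
      · exact e4 (kq_td hG hm ha.1 T)
  -- the relation
  let Rl : V → V → Prop := fun q x =>
    (Pr q ∧ x = (XX q).1) ∨
    (¬ Pr q ∧ ∃ y, Pr y ∧ Rm G c q y ∧ x = (XX y).2) ∨
    (¬ Pr q ∧ Rm G c q x ∧ x ∈ Q0 G c) ∨
    (¬ Pr q ∧ (∃ m, Acc G c m q) ∧ x ∈ Dd G c ∧ ∃ p, Rm G c q p ∧ ¬ Apx G c p ∧ G.Adj p x) ∨
    (¬ Pr q ∧ ¬ Kq G c q ∧ (∀ w, ¬ Ch G c q w) ∧ x ∈ Dd G c ∧ G.Adj q x)
  have hex : ∀ q, Apx G c q → ∃ x, Rl q x := by
    intro q hq
    by_cases hP : Pr q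
    · exact ⟨_, Or.inl ⟨hP, rfl⟩⟩
    obtain ⟨p, x, x', n, n', T⟩ := apx_td hG hm hq
    by_cases hk : Kq G c q
    · obtain ⟨kp, ap⟩ := kq_mate hG hm hk T.rqp
      have hPp : Pr p := by
        refine Or.inr ⟨kp, fun p' hp' => ?_⟩
        have e1 : p' = q := rm_uniq (hm p) hp' T.rqp.symm
        rw [e1]
        by_contra hlt
        have hne : e p ≠ e q := fun h => T.rqp.1.ne (he _ _ h).symm
        have hlt2 : e q < e p := by omega
        exact hP (Or.inr ⟨hk, fun p'' hp'' => by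
          rw [rm_uniq (hm q) hp'' T.rqp]; exact hlt2⟩)
      exact ⟨_, Or.inr (Or.inl ⟨hP, p, hPp, T.rqp, rfl⟩)⟩
    have hacc : ∃ m, Acc G c m q := by
      by_contra hno
      exact hP (Or.inl ⟨hq, hk, fun m hm' => hno ⟨m, hm'⟩⟩)
    by_cases hp : Apx G c p
    · obtain ⟨m, hacc'⟩ := hacc
      have hYp : Yy G c p := by
        refine ⟨hp, fun kp => hk (kq_mate hG hm kp T.rqp.symm).1, fun m' => ?_⟩
        exact h6 V G hG c j hj hE m m' q p hq hp T.rqp hacc'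
      exact ⟨_, Or.inr (Or.inl ⟨hP, p, Or.inl hYp, T.rqp, rfl⟩)⟩
    by_cases hp0 : p ∈ Q0 G c
    · exact ⟨p, Or.inr (Or.inr (Or.inl ⟨hP, T.rqp, hp0⟩))⟩
    have hpQ : tQ G c p := ⟨T.cp, mu_of_rm hm T.rqp.symm⟩
    have hu : ∃ u, G.Adj p u ∧ tS G c u := by
      by_contra hno
      apply hp0
      rw [dict_Q0]
      exact ⟨hpQ, fun s hs hs' => hno ⟨s, hs, hs'⟩⟩
    obtain ⟨u, hpu, hu⟩ := hu
    by_cases huD : u ∈ Dd G c
    · exact ⟨u, Or.inr (Or.inr (Or.inr (Or.inl ⟨hP, hacc, huD, p, T.rqp, hp, hpu⟩)))⟩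
    have hb : ∃ b, G.Adj u b ∧ c b = true ∧ ¬ tQ G c b := by
      by_contra hno
      apply huD
      rw [dict_D hG hm]
      refine ⟨hu, fun w hw cw => ?_⟩
      by_contra hw'
      exact hno ⟨w, hw, cw, hw'⟩
    obtain ⟨b, hub, cb, hbQ⟩ := hb
    have hbp : b ≠ p := fun e0 => hbQ (e0 ▸ hpQ)
    rcases h2 V G hG c j hj hK q p u b hq T.rqp hp hpu hu hub hbp cb with h | ⟨hbA, hPm⟩
    · exact absurd h hbQ
    obtain ⟨hch, hnn⟩ := h7 V G hG c j hj hE q p x x' n n' u b T hp hpu hu hub hbp hbA hPm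
    by_cases hn : tA G c n
    · have hn' : ¬ tA G c n' := fun h => hnn ⟨hn, h⟩
      exact ⟨x', Or.inr (Or.inr (Or.inr (Or.inr
        ⟨hP, hk, hch, cor_Dd hG hm T.swap hn', td_qx T.swap⟩)))⟩
    · exact ⟨x, Or.inr (Or.inr (Or.inr (Or.inr
        ⟨hP, hk, hch, cor_Dd hG hm T hn, td_qx T⟩)))⟩
  -- colours and types of the images
  have hcol : ∀ x, x ∈ Dd G c → c x = false := by
    intro x hx
    exact ((dict_D hG hm x).1 hx).1.1
  have hcolQ : ∀ x, x ∈ Q0 G c → c x = true := by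
    intro x hx
    exact ((dict_Q0 x).1 hx).1.1
  have hX1 : ∀ q, Pr q → G.Adj q (XX q).1 ∧ c (XX q).1 = false ∧ (XX q).1 ∈ Dd G c ∧
      G.Adj q (XX q).2 ∧ c (XX q).2 = false ∧ (XX q).2 ∈ Dd G c ∧ (XX q).1 ≠ (XX q).2 := by
    intro q hq
    obtain ⟨p, n, n', T⟩ := hXX q (hPrA q hq)
    have hn : ¬ tA G c n ∧ ¬ tA G c n' := by
      rcases hq with hq | hq
      · exact ⟨fun h => hq.2.2 0 (acc_zero T h), fun h => hq.2.2 0 (acc_zero T.swap h)⟩
      · have e1 := kq_td hG hm hq.1 T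
        have e2 := kq_td hG hm hq.1 T.swap
        have hpQ : tQ G c p := ⟨T.cp, mu_of_rm hm T.rqp.symm⟩
        rw [e1, e2]
        exact ⟨fun h => tA_not_tQ h hpQ, fun h => tA_not_tQ h hpQ⟩
    exact ⟨td_qx T, T.cx, cor_Dd hG hm T hn.1, td_qx T.swap, T.cx', cor_Dd hG hm T.swap hn.2,
      T.rxx.1.ne⟩
  have hmem : ∀ q x, Rl q x → x ∈ Dd G c ∪ Q0 G c := by
    rintro q x (⟨h, rfl⟩ | ⟨_, y, h, _, rfl⟩ | ⟨_, _, h⟩ | ⟨_, _, h, _⟩ | ⟨_, _, _, h, _⟩)
    · exact Finset.mem_union_left _ (hX1 q h).2.2.1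
    · exact Finset.mem_union_left _ (hX1 y h).2.2.2.2.2.1
    · exact Finset.mem_union_right _ h
    · exact Finset.mem_union_left _ h
    · exact Finset.mem_union_left _ h
  -- injectivity
  have hcol2 : ∀ x, c x = false → x ∈ Q0 G c → False := by
    intro x h h'
    have := hcolQ x h'
    rw [h] at this
    cases this
  have hPE : ∀ a q x, Pr a → G.Adj a x → c x = false → Apx G c q → ¬ Pr q → ¬ Kq G c q →
      G.Adj q x → False := by
    intro a q x ha hax cx hq hPq hkq hqx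
    have hne : a ≠ q := fun e0 => hPq (e0 ▸ ha)
    exact hkq (cor_uniq h1 hG hj hK (hPrA a ha) hq hax hqx cx hne).2.2
  have hDE : ∀ q q' p x, Apx G c q → Rm G c q p → ¬ Apx G c p → G.Adj p x → c x = false →
      Apx G c q' → ¬ Kq G c q' → (∀ w, ¬ Ch G c q' w) → G.Adj q' x → False := by
    intro q q' p x hq hqp hp hpx cx hq' hk' hch hqx'
    obtain ⟨pa, x', n, n', T⟩ := td_at hG hm hq' hqx' cx
    obtain ⟨pq, _, _, _, _, Tq⟩ := apx_td hG hm hq
    have epq : pq = p := rm_uniq (hm q) Tq.rqp hqp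
    have cp : c p = true := by rw [← epq]; exact Tq.cp
    have hpa : p ≠ q' := fun e0 => hp (e0 ▸ hq')
    have e1 : p = n := td_n T hpx.symm cp hpa
    rcases h1 V G hG c j hj hK q' pa x x' n n' T with ⟨e4, e5⟩ | ⟨e4, _, _⟩
    · rw [e4, e5] at T
      exact hk' ⟨pa, x, x', T⟩
    · exact hch q ⟨pa, x, x', n, n', T, e4, hq, e1 ▸ hqp⟩
  have hinj : ∀ q q' x, Apx G c q → Apx G c q' → Rl q x → Rl q' x → q = q' := by
    intro q q' x hq hq' hr hr'
    rcases hr with ⟨a1, a2⟩ | ⟨a1, y, a2, a3, a4⟩ | ⟨a1, a2, a3⟩ | ⟨a1, a2, a3, p, a4, a5, a6⟩ |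
      ⟨a1, a2, a3, a4, a5⟩
    · -- A
      have hx1 := hX1 q a1
      rw [← a2] at hx1
      rcases hr' with ⟨b1, b2⟩ | ⟨b1, y', b2, b3, b4⟩ | ⟨b1, b2, b3⟩ |
        ⟨b1, b2, b3, p', b4, b5, b6⟩ | ⟨b1, b2, b3, b4, b5⟩
      · have hx2 := hX1 q' b1
        rw [← b2] at hx2
        exact hPP q q' x a1 b1 hx1.1 hx2.1 hx1.2.1
      · have hx2 := hX1 y' b2
        have e1 := hPP q y' x a1 b2 hx1.1 (b4 ▸ hx2.2.2.2.1) hx1.2.1
        rw [← e1] at b4
        exact absurd (a2.symm.trans b4) (hX1 q a1).2.2.2.2.2.2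
      · exact (hcol2 x hx1.2.1 b3).elim
      · exact (hPD q q' p' x a1 hx1.1 hx1.2.1 hq' b4 b5 b6 b2).elim
      · exact (hPE q q' x a1 hx1.1 hx1.2.1 hq' b1 b2 b5).elim
    · -- B
      have hx1 := hX1 y a2
      rw [← a4] at hx1
      rcases hr' with ⟨b1, b2⟩ | ⟨b1, y', b2, b3, b4⟩ | ⟨b1, b2, b3⟩ |
        ⟨b1, b2, b3, p', b4, b5, b6⟩ | ⟨b1, b2, b3, b4, b5⟩
      · have hx2 := hX1 q' b1
        rw [← b2] at hx2
        have e1 := hPP q' y x b1 a2 hx2.1 hx1.2.2.2.1 hx2.2.1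
        rw [← e1] at a4
        exact absurd (b2.symm.trans a4) (hX1 q' b1).2.2.2.2.2.2
      · have hx2 := hX1 y' b2
        rw [← b4] at hx2
        have e1 := hPP y y' x a2 b2 hx1.2.2.2.1 hx2.2.2.2.1 hx1.2.2.2.2.1
        rw [← e1] at b3
        exact rm_uniq (hm y) a3.symm b3.symm
      · exact (hcol2 x hx1.2.2.2.2.1 b3).elim
      · exact (hPD y q' p' x a2 hx1.2.2.2.1 hx1.2.2.2.2.1 hq' b4 b5 b6 b2).elim
      · exact (hPE y q' x a2 hx1.2.2.2.1 hx1.2.2.2.2.1 hq' b1 b2 b5).elim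
    · -- C
      rcases hr' with ⟨b1, b2⟩ | ⟨b1, y', b2, b3, b4⟩ | ⟨b1, b2, b3⟩ |
        ⟨b1, b2, b3, p', b4, b5, b6⟩ | ⟨b1, b2, b3, b4, b5⟩
      · have hx2 := hX1 q' b1
        rw [← b2] at hx2
        exact (hcol2 x hx2.2.1 a3).elim
      · have hx2 := hX1 y' b2
        rw [← b4] at hx2
        exact (hcol2 x hx2.2.2.2.2.1 a3).elim
      · exact rm_uniq (hm x) a2.symm b2.symm
      · exact (hcol2 x (hcol x b3) a3).elim
      · exact (hcol2 x (hcol x b4) a3).elim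
    · -- D
      rcases hr' with ⟨b1, b2⟩ | ⟨b1, y', b2, b3, b4⟩ | ⟨b1, b2, b3⟩ |
        ⟨b1, b2, b3, p', b4, b5, b6⟩ | ⟨b1, b2, b3, b4, b5⟩
      · have hx2 := hX1 q' b1
        rw [← b2] at hx2
        exact (hPD q' q p x b1 hx2.1 hx2.2.1 hq a4 a5 a6 a2).elim
      · have hx2 := hX1 y' b2
        rw [← b4] at hx2
        exact (hPD y' q p x b2 hx2.2.2.2.1 hx2.2.2.2.2.1 hq a4 a5 a6 a2).elim
      · exact (hcol2 x (hcol x a3) b3).elim
      · by_contra hne
        obtain ⟨m, hacc⟩ := a2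
        exact h4 V G hG c j hj hK m q q' p p' x hq hq' hne a4 b4 a5 b5
          ((dict_D hG hm x).1 a3).1 a6.symm b6.symm hacc
      · exact (hDE q q' p x hq a4 a5 a6 (hcol x a3) hq' b2 b3 b5).elim
    · -- E
      rcases hr' with ⟨b1, b2⟩ | ⟨b1, y', b2, b3, b4⟩ | ⟨b1, b2, b3⟩ |
        ⟨b1, b2, b3, p', b4, b5, b6⟩ | ⟨b1, b2, b3, b4, b5⟩
      · have hx2 := hX1 q' b1
        rw [← b2] at hx2
        exact (hPE q' q x b1 hx2.1 hx2.2.1 hq a1 a2 a5).elim
      · have hx2 := hX1 y' b2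
        rw [← b4] at hx2
        exact (hPE y' q x b2 hx2.2.2.2.1 hx2.2.2.2.2.1 hq a1 a2 a5).elim
      · exact (hcol2 x (hcol x a4) b3).elim
      · exact (hDE q' q p' x hq' b4 b5 b6 (hcol x a4) hq a2 a3 a5).elim
      · by_contra hne
        exact a2 (cor_uniq h1 hG hj hK hq hq' a5 b5 (hcol x a4) hne).2.1
  -- conclusion
  have hf : ∀ q, ∃ x, Apx G c q → Rl q x := by
    intro q
    by_cases h : Apx G c q
    · obtain ⟨x, hx⟩ := hex q h
      exact ⟨x, fun _ => hx⟩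
    · exact ⟨q, fun h' => absurd h' h⟩
  choose f hf using hf
  have hcard : Ta G c ≤ (Dd G c ∪ Q0 G c).card := by
    unfold Ta
    refine Finset.card_le_card_of_injOn f ?_ ?_
    · intro q hq
      have hq' : Apx G c q := by simpa using hq
      exact_mod_cast hmem q (f q) (hf q hq')
    · intro q hq q' hq' hff
      have h1' : Apx G c q := by simpa using hq
      have h2' : Apx G c q' := by simpa using hq'
      have h3' := hf q h1'
      have h4' := hf q' h2'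
      rw [← hff] at h4'
      exact hinj q q' (f q) h1' h2' h3' h4'
  exact hcard.trans (Finset.card_union_le _ _)

end Pool.Agent.Helper51.MC
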