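import Mathlib
import Pool.Agent.Helper27.MC.Base2
import Pool.Agent.Helper51.MC.NB
import Pool.Agent.Helper35.MC.F3

/-!
MP_4042d8_co, row CLS: the slots for girth at least 5.
-/

namespace Pool.Agent.Helper51.MC

open Pool.Agent.Helper27.MC

set_option autoImplicit false
set_option linter.unusedSectionVars false
set_option linter.unusedSimpArgs false

/-- row CLS -/
theorem CLS (h2 : ST_F2) : ST_CLS := by
  intro V _ _ G _ hG hT hQ c j hO hj
  have hm := hO.mu1
  -- false vertices are of type `B` or `S`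
  have hbs : ∀ w : V, c w = false → tB G c w ∨ tS G c w := by
    intro w hw
    have h1 := hm w
    unfold tB tS
    have h3 : mu G c w = 0 ∨ mu G c w = 1 := by omega
    rcases h3 with h3 | h3 <;> simp [h3, hw]
  have haq : ∀ w : V, c w = true → tA G c w ∨ tQ G c w := by
    intro w hw
    have h1 := hm w
    unfold tA tQ
    have h3 : mu G c w = 0 ∨ mu G c w = 1 := by omega
    rcases h3 with h3 | h3 <;> simp [h3, hw]
  -- two nonadjacent free vertices have no third `B` at a common `A`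
  have hF3 : ∀ a s1 s2 w : V, tA G c a → G.Adj a s1 → G.Adj a s2 → G.Adj a w → s1 ≠ s2 →
      Fr G c s1 → Fr G c s2 → tB G c w → False := by
    intro a s1 s2 w ha h3 h4 h5 h6 h7 h8 h9
    obtain ⟨b, hb, hb1, hb2⟩ := Pool.Agent.Helper35.MC.st_F3 V G hG c j hO (by omega) a s1 s2 w ha
      h3 h4 h5 h6 h7 h8 h9 (fun h => hT s1 a s2 h3.symm h4 h)
    exact hQ a b s1 s2 hb.symm h6 h3 h4 hb1 hb2
  -- three `S`-neighbours are impossible
  have hF2 : ∀ a s1 s2 s3 : V, tA G c a → G.Adj a s1 → G.Adj a s2 → G.Adj a s3 →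
      s1 ≠ s2 → s1 ≠ s3 → s2 ≠ s3 → tS G c s1 → tS G c s2 → tS G c s3 → False := by
    intro a s1 s2 s3 ha h3 h4 h5 h6 h7 h8 h9 h10 h11
    rcases h2 V G hG c j hO hj a s1 s2 s3 ha h3 h4 h5 h6 h7 h8 h9 h10 h11 with h | h | h
    · exact hT s1 a s2 h3.symm h4 h
    · exact hT s1 a s3 h3.symm h5 h
    · exact hT s2 a s3 h4.symm h5 h
  have hA : ∀ a u : V, tA G c a → G.Adj a u → ∃ x y : V, u ≠ x ∧ u ≠ y ∧ x ≠ y ∧
      (∀ w, G.Adj a w ↔ w = u ∨ w = x ∨ w = y) ∧ c x = false ∧ c y = false := by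
    intro a u ha hau
    obtain ⟨x, y, z, h3, h4, h5, h, hx, hy, hz⟩ := ((NB V G hG c a).2.1 ha.2)
    rw [ha.1] at hx hy hz
    rcases (h u).1 hau with h6 | h6 | h6
    · subst h6
      exact ⟨y, z, h3, h4, h5, h, hy, hz⟩
    · subst h6
      exact ⟨x, z, h3.symm, h5, h4, fun w => by rw [h w]; tauto, hx, hz⟩
    · subst h6
      exact ⟨x, y, h4.symm, h5.symm, h3, fun w => by rw [h w]; tauto, hx, hy⟩
  constructor
  · rintro u a ⟨hu, ha, hua⟩
    have hau := hua.symm
    obtain ⟨x, y, h3, h4, h5, h, hx, hy⟩ := hA a u ha hau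
    have hax : G.Adj a x := (h x).2 (by simp)
    have hay : G.Adj a y := (h y).2 (by simp)
    have key : ∀ t z : V, t ≠ u → G.Adj a t → G.Adj a z → tS G c t → tB G c z →
        (∀ w, G.Adj a w → w = u ∨ w = t ∨ w = z) → Msl G c u a t := by
      intro t z ht hat haz hSt hBz hall
      refine ⟨⟨hu, ha, hua⟩, hat, ht, ?_, ?_⟩
      · refine ⟨hSt, ?_, ⟨a, hat.symm, ha⟩⟩
        by_contra hno
        have hfr : Fr G c t := by
          refine ⟨hSt, fun w hw hcw => ?_⟩
          rcases haq w hcw with h6 | h6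
          · exact h6
          · exact absurd ⟨w, hw, h6⟩ hno
        exact hF3 a u t z ha hau hat haz (Ne.symm ht) hu hfr hBz
      · intro w hw hwu hwt
        rcases hall w hw with h6 | h6 | h6
        · exact absurd h6 hwu
        · exact absurd h6 hwt
        · rw [h6]; exact hBz
    rcases hbs x hx with hx' | hx' <;> rcases hbs y hy with hy' | hy'
    · left
      refine ⟨⟨hu, ha, hua⟩, fun w hw hwu => ?_⟩
      rcases (h w).1 hw with h6 | h6 | h6
      · exact absurd h6 hwu
      · rw [h6]; exact hx'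
      · rw [h6]; exact hy'
    · right
      exact ⟨y, key y x (Ne.symm h4) hay hax hy' hx' (fun w hw => by
        rcases (h w).1 hw with h6 | h6 | h6
        · exact Or.inl h6
        · exact Or.inr (Or.inr h6)
        · exact Or.inr (Or.inl h6))⟩
    · right
      exact ⟨x, key x y (Ne.symm h3) hax hay hx' hy' (fun w hw => (h w).1 hw)⟩
    · exact (hF2 a u x y ha hau hax hay h3 h4 h5 hu.1 hx' hy').elim
  · rintro u u' a ⟨hu, ha, hua⟩ ⟨hu', _, hua'⟩
    by_contra hne
    have hau := hua.symm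
    have hau' := hua'.symm
    obtain ⟨x, y, h3, h4, h5, h, hx, hy⟩ := hA a u ha hau
    have hax : G.Adj a x := (h x).2 (by simp)
    have hay : G.Adj a y := (h y).2 (by simp)
    rcases (h u').1 hau' with h6 | h6 | h6
    · exact hne h6.symm
    · subst h6
      rcases hbs y hy with hy' | hy'
      · exact hF3 a u u' y ha hau hau' hay hne hu hu' hy'
      · exact hF2 a u u' y ha hau hau' hay hne h4 h5 hu.1 hu'.1 hy'
    · subst h6
      rcases hbs x hx with hx' | hx'
      · exact hF3 a u u' x ha hau hau' hax hne hu hu' hx'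
      · exact hF2 a u u' x ha hau hau' hax hne h3 (Ne.symm h5) hu.1 hu'.1 hx'

end Pool.Agent.Helper51.MC
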