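import Mathlib
import Pool.Agent.Helper27.MC.Base

/-!
MP_4042d8_co, row GRD: greedy choice of independent elements.
-/

namespace Pool.Agent.Helper51.MC

open Pool.Agent.Helper27.MC

set_option autoImplicit false

/-- row GRD -/
theorem GRD : ST_GRD := by
  intro α _ s R _ k j hsym
  induction j generalizing s with
  | zero =>
    intro _ _ _ _
    exact ⟨∅, Finset.empty_subset _, rfl, by simp⟩
  | succ j ih =>
    intro hrefl hk hcard hk0
    have hne : s.Nonempty := by
      rw [← Finset.card_pos]
      have : 0 < k * (j + 1) := Nat.mul_pos hk0 (Nat.succ_pos j)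
      omega
    obtain ⟨x, hx⟩ := hne
    have hsplit : (s.filter (fun y => R x y)).card + (s.filter (fun y => ¬ R x y)).card = s.card :=
      Finset.card_filter_add_card_filter_not (fun y => R x y)
    have hkx := hk x hx
    obtain ⟨t, hts, htc, ht⟩ := ih (s.filter (fun y => ¬ R x y))
      (fun y hy => hrefl y (Finset.mem_of_mem_filter y hy))
      (fun y hy => le_trans (Finset.card_le_card (Finset.filter_subset_filter _
        (Finset.filter_subset _ _))) (hk y (Finset.mem_of_mem_filter y hy)))
      (by
        have : k * (j + 1) = k * j + k := by ring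
        omega) hk0
    have hxt : x ∉ t := by
      intro h
      have := (Finset.mem_filter.1 (hts h)).2
      exact this (hrefl x hx)
    refine ⟨insert x t, ?_, ?_, ?_⟩
    · intro y hy
      rcases Finset.mem_insert.1 hy with rfl | hy
      · exact hx
      · exact Finset.mem_of_mem_filter y (hts hy)
    · rw [Finset.card_insert_of_notMem hxt, htc]
    · intro y hy z hz hyz hR
      rcases Finset.mem_insert.1 hy with h1 | h1 <;> rcases Finset.mem_insert.1 hz with h2 | h2
      · exact hyz (h1.trans h2.symm)
      · rw [h1] at hR
        exact (Finset.mem_filter.1 (hts h2)).2 hR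
      · rw [h2] at hR
        exact (Finset.mem_filter.1 (hts h1)).2 (hsym _ _ hR)
      · exact ht y h1 z h2 hyz hR

end Pool.Agent.Helper51.MC
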